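import Pool.Agent.H89.KD.Stmts
import Pool.Agent.H33.KG.BAS
import Pool.Agent.H29.Sym.S

/-!
# Board `kd`, module BOC: the Bochner inequality
-/

set_option autoImplicit false

open MeasureTheory Set Filter Topology
open scoped ContDiff

namespace Pool.Agent.H89.KD

open Pool.Agent.H84 Pool.Agent.H84.Sym Pool.Agent.H84.Sym.P2x Pool.Agent.H84.Sym.C29
open Pool.Agent.H84.Sym.S29 Pool.Agent.H19.KL Pool.Agent.H73.KG Pool.Agent.H20.KH

theorem boc_thm (E : Type) [NormedAddCommGroup E] [InnerProductSpace ℝ E]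
    [FiniteDimensional ℝ E] [MeasurableSpace E] [BorelSpace E] : BOCStmt E := by
  rintro U t ⟨⟨C, hU⟩, hp⟩ ι _ b u hu c
  have hU1 : ContDiff ℝ 1 U := hU.smooth.of_le (by norm_num)
  have hu1 : ContDiff ℝ 1 u := hu.1.of_le (by exact_mod_cast (le_top : (1 : ℕ∞) ≤ ⊤))
  have hbo := bochner b (q := fun _ => t) hU.smooth continuous_const (fun x v => hU.hess x v)
    (by simpa using contDiff_infty.mp hu.1 3) hu.2
  rw [integral_const_mul] at hbo
  have hgr : ∀ i, BC (fun x => ‖fderiv ℝ (D (b i) u) x‖ ^ 2) := fun i =>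
    grad_BC ((tst_D hu (b i)).1.of_le (by exact_mod_cast (le_top : (1 : ℕ∞) ≤ ⊤)))
      (tst_D hu (b i)).2
  rw [integral_finsetSum _ (fun i _ => (hgr i).integrable (mu U))] at hbo
  have e0 : ∫ x, LO b U u x ∂(mu U) = 0 := by
    have g0 := green b (f := fun _ => (1:ℝ)) hU1 (by simpa using contDiff_infty.mp hu.1 2)
      contDiff_const (Or.inl hu.2)
    have h1 : ∀ x, (∑ i, D (b i) u x * D (b i) (fun _ : E => (1:ℝ)) x) = 0 := by
      intro x
      refine Finset.sum_eq_zero fun i _ => ?_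
      simp [D]
    simp only [h1, mul_one, integral_zero, neg_zero] at g0
    exact g0
  have hLB : BC (LO b U u) := LO_BC b hU1 hu
  have hX : ∫ x, (XU b U u c x) ^ 2 ∂(mu U) = (∫ x, (LO b U u x) ^ 2 ∂(mu U)) + c ^ 2 := by
    have h1 : ∀ x, (XU b U u c x) ^ 2 = (LO b U u x) ^ 2 - (2 * c) * LO b U u x + c ^ 2 := by
      intro x
      unfold XU
      ring
    simp only [h1]
    rw [integral_add, integral_sub, integral_const_mul, e0]
    · simp
    · exact hLB.sq.integrable (mu U)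
    · exact (hLB.integrable (mu U)).const_mul _
    · exact (hLB.sq.integrable (mu U)).sub ((hLB.integrable (mu U)).const_mul _)
    · exact integrable_const _
  have e1 : ∀ i, ∑ j, ∫ x, (D (b j) (D (b i) u) x) ^ 2 ∂(mu U) =
      ∫ x, ‖fderiv ℝ (D (b i) u) x‖ ^ 2 ∂(mu U) := by
    intro i
    have hd := tst_D hu (b i)
    rw [← integral_finsetSum _ (fun j _ => ((D_BC (hd.1.of_le
      (by exact_mod_cast (le_top : (1 : ℕ∞) ≤ ⊤))) hd.2 (b j)).sq).integrable (mu U))]
    simp only [norm_fderiv_sq b (D (b i) u)]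
  have e2 : ∑ i, ∫ x, (D (b i) u x) ^ 2 ∂(mu U) = ∫ x, ‖fderiv ℝ u x‖ ^ 2 ∂(mu U) := by
    rw [← integral_finsetSum _ (fun i _ => ((D_BC hu1 hu.2 (b i)).sq).integrable (mu U))]
    simp only [norm_fderiv_sq b u]
  rw [hX, Finset.sum_congr rfl (fun i _ => e1 i), e2]
  nlinarith [sq_nonneg c]

end Pool.Agent.H89.KD
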