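import Pool.Agent.H89.KD.Stmts
import Pool.Agent.H33.KG.BAS
import Pool.Agent.H29.Sym.S

/-!
# Board `kd`, module GPF: the Poincare inequality from the bound of the operators
-/

set_option autoImplicit false

open MeasureTheory Set Filter Topology
open scoped ContDiff

namespace Pool.Agent.H89.KD

open Pool.Agent.H84 Pool.Agent.H84.Sym Pool.Agent.H84.Sym.P2x Pool.Agent.H84.Sym.C29
open Pool.Agent.H84.Sym.S29 Pool.Agent.H19.KL Pool.Agent.H73.KG Pool.Agent.H20.KH

theorem gpf_thm (E : Type) [NormedAddCommGroup E] [InnerProductSpace ℝ E]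
    [FiniteDimensional ℝ E] [MeasurableSpace E] [BorelSpace E] (hM : MEMStmt E)
    (hT : TSFStmt E) (hD : DNSStmt E) (hG : GREStmt E) : GPFStmt E := by
  intro U t hU ι _ b T hTT C hC hbd f hf hfc
  obtain ⟨m0, mAdd, mSmul, mIn, mNorm, mOne⟩ := hM U t hU
  obtain ⟨t1, t2, t3⟩ := hT U t hU ι b
  obtain ⟨g1, g2, g3⟩ := hG U t hU ι b
  have hDNS := hD U t hU ι b
  obtain ⟨⟨CU, hPot⟩, hp⟩ := hU
  have hone : GC (fun _ : E => (1:ℝ)) := GC.of_BC (BC.const 1)
  have hfB : BC f := BC.of_compact hf.continuous hfc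
  have hfG : GC f := GC.of_BC hfB
  set m := ∫ x, f x ∂(mu U) with hm
  have hc1 : GC (fun _ : E => -m * 1) := GC.of_BC (BC.const _)
  have hft : GC (fun x => f x + -m * 1) := GC.of_BC (hfB.add (BC.const _))
  set h := tL U (fun x => f x + -m * 1) with hh
  set D0 := ∫ x, ‖fderiv ℝ f x‖ ^ 2 ∂(mu U) with hD0
  have hD0n : 0 ≤ D0 := integral_nonneg fun x => by positivity
  have hDf : ∀ j, BC (D (b j) f) := fun j => D_BC hf hfc (b j)
  have hsf : ∑ j, ‖tL U (D (b j) f)‖ ^ 2 = D0 := by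
    have h1 : ∀ j, ‖tL U (D (b j) f)‖ ^ 2 = ∫ x, (D (b j) f x) ^ 2 ∂(mu U) := fun j =>
      mNorm _ (GC.of_BC (hDf j))
    rw [Finset.sum_congr rfl fun j _ => h1 j,
      ← integral_finsetSum _ (fun j _ => ((hDf j).sq).integrable (mu U))]
    simp only [norm_fderiv_sq b f, hD0]
  have hX : ∀ (u : E → ℝ) (c : ℝ), Tst u →
      (inner ℝ h (tL U (XU b U u c)) : ℝ) ^ 2 ≤ D0 * C * ‖tL U (XU b U u c)‖ ^ 2 := by
    intro u c hu
    obtain ⟨hu1, hu2, hu3, hu4, -⟩ := t1 u hu
    have hLB : BC (LO b U u) := LO_BC b (hPot.smooth.of_le (by norm_num)) hu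
    have hX0 : GC (XU b U u 0) := hu3 0
    have e1 : tL U (XU b U u c) = tL U (XU b U u 0) + c • tL U (fun _ => (1:ℝ)) := by
      rw [← mSmul c _ hone, ← mAdd _ _ hX0 (GC.of_BC (BC.const _))]
      congr 1
      funext x
      simp only [XU]
      ring
    have e2 : (inner ℝ (tL U (fun _ => (1:ℝ))) (tL U (XU b U u 0)) : ℝ) = 0 := by
      rw [mIn _ _ hone hX0]
      have h1 : ∀ x, (1:ℝ) * XU b U u 0 x = -LO b U u x := by
        intro x
        unfold XU
        ring
      simp only [h1, integral_neg, g1 u hu, neg_zero]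
    have e3 : ‖tL U (XU b U u c)‖ ^ 2 = ‖tL U (XU b U u 0)‖ ^ 2 + c ^ 2 := by
      rw [e1, norm_add_sq_real, inner_smul_right, real_inner_comm, e2, norm_smul, mOne, mul_one,
        Real.norm_eq_abs, sq_abs]
      ring
    have e4 : ∑ j, ‖tL U (D (b j) u)‖ ^ 2 ≤ C * ‖tL U (XU b U u 0)‖ ^ 2 := by
      have h1 := hbd _ e2
      rwa [Finset.sum_congr rfl fun j _ => by rw [hTT j u hu 0]] at h1
    have e5 : (inner ℝ h (tL U (XU b U u c)) : ℝ) =
        ∑ j, (inner ℝ (tL U (D (b j) f)) (tL U (D (b j) u)) : ℝ) := by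
      have h1 : ∀ j, (inner ℝ (tL U (D (b j) f)) (tL U (D (b j) u)) : ℝ) =
          ∫ x, D (b j) f x * D (b j) u x ∂(mu U) := fun j =>
        mIn _ _ (GC.of_BC (hDf j)) (hu4 (b j)).2
      rw [Finset.sum_congr rfl fun j _ => h1 j, ← g2 f u hf hfc hu, hh, mIn _ _ hft (hu3 c)]
      have h2 : ∀ x, (f x + -m * 1) * XU b U u c x =
          f x * (-LO b U u x) + c * f x + m * LO b U u x - m * c := by
        intro x
        unfold XU
        ring
      simp only [h2]
      have i1 : Integrable (fun x => f x * (-LO b U u x)) (mu U) :=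
        (hfB.mul hLB.neg).integrable (mu U)
      have i2 : Integrable (fun x => c * f x) (mu U) := (hfB.integrable (mu U)).const_mul c
      have i3 : Integrable (fun x => m * LO b U u x) (mu U) := (hLB.integrable (mu U)).const_mul m
      have i12 : Integrable (fun x => f x * (-LO b U u x) + c * f x) (mu U) := i1.add i2
      have i123 : Integrable (fun x => f x * (-LO b U u x) + c * f x + m * LO b U u x) (mu U) :=
        i12.add i3
      rw [integral_sub i123 (integrable_const _), integral_add i12 i3,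
        integral_add i1 i2, integral_const_mul, integral_const_mul, g1 u hu, ← hm]
      simp
      ring
    have e6 : |(inner ℝ h (tL U (XU b U u c)) : ℝ)| ≤
        ∑ j, ‖tL U (D (b j) f)‖ * ‖tL U (D (b j) u)‖ := by
      rw [e5]
      exact (Finset.abs_sum_le_sum_abs _ _).trans
        (Finset.sum_le_sum fun j _ => abs_real_inner_le_norm _ _)
    have e7 := Finset.sum_mul_sq_le_sq_mul_sq Finset.univ (fun j => ‖tL U (D (b j) f)‖)
      (fun j => ‖tL U (D (b j) u)‖)
    rw [hsf] at e7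
    calc (inner ℝ h (tL U (XU b U u c)) : ℝ) ^ 2
        = |(inner ℝ h (tL U (XU b U u c)) : ℝ)| ^ 2 := (sq_abs _).symm
      _ ≤ (∑ j, ‖tL U (D (b j) f)‖ * ‖tL U (D (b j) u)‖) ^ 2 :=
          pow_le_pow_left₀ (abs_nonneg _) e6 2
      _ ≤ D0 * ∑ j, ‖tL U (D (b j) u)‖ ^ 2 := e7
      _ ≤ D0 * (C * ‖tL U (XU b U u 0)‖ ^ 2) := mul_le_mul_of_nonneg_left e4 hD0n
      _ ≤ D0 * C * ‖tL U (XU b U u c)‖ ^ 2 := by
          rw [e3, mul_assoc]
          refine mul_le_mul_of_nonneg_left (mul_le_mul_of_nonneg_left ?_ hC) hD0n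
          nlinarith [sq_nonneg c]
  have hall : ∀ X : Lp ℝ 2 (mu U), (inner ℝ h X : ℝ) ^ 2 ≤ D0 * C * ‖X‖ ^ 2 := by
    intro X
    have hcl : IsClosed {X : Lp ℝ 2 (mu U) | (inner ℝ h X : ℝ) ^ 2 ≤ D0 * C * ‖X‖ ^ 2} :=
      isClosed_le (by fun_prop) (by fun_prop)
    have hmem : X ∈ closure {Y : Lp ℝ 2 (mu U) | ∃ u c, Tst u ∧ Y = tL U (XU b U u c)} := by
      rw [Metric.mem_closure_iff]
      intro ε hε
      obtain ⟨u, c, hu, huc⟩ := hDNS X (ε / 2) (half_pos hε)
      refine ⟨_, ⟨u, c, hu, rfl⟩, ?_⟩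
      rw [dist_eq_norm]
      linarith
    refine hcl.closure_subset_iff.2 ?_ hmem
    rintro Y ⟨u, c, hu, rfl⟩
    exact hX u c hu
  have hfin := hall h
  rw [real_inner_self_eq_norm_sq] at hfin
  have hle : ‖h‖ ^ 2 ≤ D0 * C := by
    rcases (sq_nonneg ‖h‖).eq_or_lt with h0 | h0
    · rw [← h0]
      positivity
    · refine le_of_mul_le_mul_right ?_ h0
      calc ‖h‖ ^ 2 * ‖h‖ ^ 2 = (‖h‖ ^ 2) ^ 2 := by ring
        _ ≤ _ := hfin
  have hn : ‖h‖ ^ 2 = (∫ x, f x ^ 2 ∂(mu U)) - m ^ 2 := by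
    rw [hh, mNorm _ hft]
    have h2 : ∀ x, (f x + -m * 1) ^ 2 = f x ^ 2 - 2 * m * f x + m ^ 2 := by
      intro x
      ring
    simp only [h2]
    rw [integral_add, integral_sub, integral_const_mul, ← hm]
    · simp
      ring
    · exact hfB.sq.integrable (mu U)
    · exact (hfB.integrable (mu U)).const_mul _
    · exact (hfB.sq.integrable (mu U)).sub ((hfB.integrable (mu U)).const_mul _)
    · exact integrable_const _
  have hMu : (mu U).real univ = 1 := by simp
  rw [hMu, one_mul, one_mul, ← hn, mul_comm C D0]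
  exact hle

end Pool.Agent.H89.KD
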